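import Pool.Agent.Lib_MP_cd200f_co.OddP

/-!
# The lines of a regular spread which are fixed by a linear map
-/

namespace Pool.Agent.RegPack

open Module Polynomial

variable {F V : Type*} [Field F] [AddCommGroup V] [Module F V]
variable {S : Set (Submodule F V)} {J : Module.End F V} {τ δ : F}

/-- a map of order dividing `q ^ 2 - 1` which commutes with the kernel lies in the kernel or fixes
exactly two lines of the spread -/
theorem two_fixed [Fintype F] (hV : finrank F V = 4) (hS : IsSpread S) (h : Ker S J τ δ)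
    (G : V ≃ₗ[F] V) (hGJ : ∀ v, G (J v) = J (G v)) {r : ℕ} (hr : ∀ v, (G ^ r) v = v)
    (hdvd : r ∣ Fintype.card F ^ 2 - 1) :
    (∃ x y : F, ∀ v, G v = x • v + y • J v) ∨
    ∃ A B, A ∈ S ∧ B ∈ S ∧ A ≠ B ∧ (∀ v ∈ A, G v ∈ A) ∧ (∀ v ∈ B, G v ∈ B) ∧
      ∀ U ∈ S, (∀ v ∈ U, G v ∈ U) → U = A ∨ U = B := by
  have hnt : Nontrivial V := Module.nontrivial_of_finrank_pos (R := F) (by rw [hV]; norm_num)
  have hfact : Fact (∀ c : F, c ^ 2 ≠ -δ + τ * c) := ⟨fun c hc => h.no_root c (by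
    linear_combination hc)⟩
  let φ : QuadraticAlgebra F (-δ) τ →ₐ[F] Module.End F V := QuadraticAlgebra.lift ⟨J, by
    ext v
    show J (J v) = ((-δ) • (1 : Module.End F V) + τ • J) v
    rw [h.quad, LinearMap.add_apply, LinearMap.smul_apply, LinearMap.smul_apply]
    show τ • J v - δ • v = (-δ) • v + τ • J v
    module⟩
  let _ : Module (QuadraticAlgebra F (-δ) τ) V := Module.compHom V φ.toRingHom
  have hsm : ∀ (z : QuadraticAlgebra F (-δ) τ) (v : V), z • v = z.re • v + z.im • J v :=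
    fun z v => rfl
  have hfin : Fintype (QuadraticAlgebra F (-δ) τ) :=
    Fintype.ofEquiv (F × F) (QuadraticAlgebra.equivProd (-δ) τ).symm
  have hcard : Fintype.card (QuadraticAlgebra F (-δ) τ) = Fintype.card F ^ 2 := by
    rw [Module.card_eq_pow_finrank (K := F), QuadraticAlgebra.finrank_eq_two]
  let GK : V →ₗ[QuadraticAlgebra F (-δ) τ] V :=
    { toFun := G
      map_add' := fun a b => map_add G a b
      map_smul' := fun z v => by
        show G (z • v) = z • G v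
        rw [hsm, hsm, map_add, map_smul, map_smul, hGJ] }
  have hGK : ∀ v, GK v = G v := fun v => rfl
  have hpow : ∀ (m : ℕ) (v : V), (GK ^ m) v = (G ^ m) v := by
    intro m
    induction m with
    | zero => intro v; rfl
    | succ m ih =>
      intro v
      rw [pow_succ, pow_succ]
      show (GK ^ m) (G v) = (G ^ m) (G v)
      exact ih (G v)
  have hGq : GK ^ Fintype.card (QuadraticAlgebra F (-δ) τ) = GK := by
    obtain ⟨m, hm⟩ := hdvd
    have hq : 1 ≤ Fintype.card F ^ 2 := Nat.one_le_pow _ _ Fintype.card_pos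
    have e : Fintype.card F ^ 2 = r * m + 1 := by omega
    have hrm : ∀ (m : ℕ) (v : V), (G ^ (r * m)) v = v := by
      intro m
      induction m with
      | zero => intro v; rfl
      | succ m ih =>
        intro v
        rw [Nat.mul_succ, pow_add]
        show (G ^ (r * m)) ((G ^ r) v) = v
        rw [hr, ih]
    ext v
    rw [hcard, e, hpow, pow_succ]
    show (G ^ (r * m)) (G v) = GK v
    rw [hrm]
    rfl
  -- eigenvectors
  have hex : ∀ x : QuadraticAlgebra F (-δ) τ, (∀ v, G v = x • v) ∨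
      ∃ a, a ≠ x ∧ ∃ v, v ≠ 0 ∧ G v = a • v := by
    intro x
    by_cases hx : ∀ a, a ≠ x → ∀ v, GK v = a • v → v = 0
    · exact Or.inl fun v => scalar_of_card hGq x hx v
    · push Not at hx
      obtain ⟨a, ha, v, hv, hv0⟩ := hx
      exact Or.inr ⟨a, ha, v, hv0, hv⟩
  obtain ⟨v₀, hv₀⟩ := exists_ne (0 : V)
  rcases hex 0 with h0 | ⟨x₁, -, v₁, hv₁, he₁⟩
  · exfalso
    have h1 := h0 v₀
    rw [zero_smul] at h1
    exact hv₀ ((LinearEquiv.map_eq_zero_iff G).1 h1)
  rcases hex x₁ with h0 | ⟨x₂, hne, v₂, hv₂, he₂⟩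
  · exact Or.inl ⟨x₁.re, x₁.im, fun v => (h0 v).trans (hsm x₁ v)⟩
  right
  have hK : ∀ {w a : V} (z : QuadraticAlgebra F (-δ) τ), G w = z • w →
      a ∈ Submodule.span F {w, J w} → G a = z • a := by
    intro w a z hz ha
    rw [Submodule.mem_span_pair] at ha
    obtain ⟨p, s, rfl⟩ := ha
    have e : p • w + s • J w = (⟨p, s⟩ : QuadraticAlgebra F (-δ) τ) • w := (hsm ⟨p, s⟩ w).symm
    rw [e]
    have h1 := GK.map_smul ⟨p, s⟩ w
    rw [hGK, hGK] at h1
    rw [h1, hz, smul_smul, smul_smul, mul_comm]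
  have hKs : ∀ {w a : V} (z : QuadraticAlgebra F (-δ) τ),
      a ∈ Submodule.span F {w, J w} → z • a ∈ Submodule.span F {w, J w} := by
    intro w a z ha
    rw [Submodule.mem_span_pair] at ha ⊢
    obtain ⟨p, s, rfl⟩ := ha
    have e : p • w + s • J w = (⟨p, s⟩ : QuadraticAlgebra F (-δ) τ) • w := (hsm ⟨p, s⟩ w).symm
    rw [e, smul_smul, hsm]
    exact ⟨_, _, rfl⟩
  obtain ⟨A, hA⟩ : ∃ A, A = Submodule.span F {v₁, J v₁} := ⟨_, rfl⟩
  obtain ⟨B, hB⟩ : ∃ B, B = Submodule.span F {v₂, J v₂} := ⟨_, rfl⟩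
  have hAS : A ∈ S := by rw [hA]; exact h.line hv₁
  have hBS : B ∈ S := by rw [hB]; exact h.line hv₂
  have hGA : ∀ a ∈ A, G a = x₁ • a := fun a ha => by
    rw [hA] at ha
    exact hK x₁ he₁ ha
  have hGB : ∀ b ∈ B, G b = x₂ • b := fun b hb => by
    rw [hB] at hb
    exact hK x₂ he₂ hb
  have hsA : ∀ (z : QuadraticAlgebra F (-δ) τ) (a : V), a ∈ A → z • a ∈ A := fun z a ha => by
    rw [hA] at ha ⊢
    exact hKs z ha
  have hsB : ∀ (z : QuadraticAlgebra F (-δ) τ) (b : V), b ∈ B → z • b ∈ B := fun z b hb => by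
    rw [hB] at hb ⊢
    exact hKs z hb
  have hv₂B : v₂ ∈ B := by
    rw [hB]
    exact Submodule.subset_span (by simp)
  have hcanc : ∀ {z z' : QuadraticAlgebra F (-δ) τ} {v : V}, v ≠ 0 → z • v = z' • v → z = z' := by
    intro z z' v hv hz
    by_contra hzz
    have h1 : (z - z') • v = 0 := by rw [sub_smul, hz, sub_self]
    have h2 : (z - z')⁻¹ • ((z - z') • v) = 0 := by rw [h1, smul_zero]
    rw [smul_smul, inv_mul_cancel₀ (sub_ne_zero.2 hzz), one_smul] at h2
    exact hv h2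
  have hAB : A ≠ B := by
    intro e
    rw [← e] at hv₂B
    have h1 := hGA v₂ hv₂B
    rw [he₂] at h1
    exact hne (hcanc hv₂ h1)
  refine ⟨A, B, hAS, hBS, hAB, fun v hv => ?_, fun v hv => ?_, fun U hU hGU => ?_⟩
  · rw [hGA v hv]
    exact hsA _ _ hv
  · rw [hGB v hv]
    exact hsB _ _ hv
  obtain ⟨u, huU, hu0⟩ := (hS.line U hU).exists_ne
  have hUJ := (h.mem U (hS.line U hU)).1 hU
  obtain ⟨α, β, hαβ⟩ := (hS.line U hU).exists_coef huU (hUJ u huU) (h.indep hu0) (hGU u huU)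
  have hκ : G u = (⟨α, β⟩ : QuadraticAlgebra F (-δ) τ) • u := hαβ.trans (hsm ⟨α, β⟩ u).symm
  obtain ⟨e, he⟩ := exists_decomp hV (hS.line A hAS) (hS.line B hBS) (fun v hv1 hv2 =>
    hS.disj' hAS hBS hAB hv1 hv2)
  obtain ⟨⟨a, b⟩, hab⟩ := e.surjective u
  rw [he] at hab
  have hab' : (a : V) + b = u := hab
  obtain ⟨κ, hκd⟩ : ∃ κ : QuadraticAlgebra F (-δ) τ, κ = ⟨α, β⟩ := ⟨_, rfl⟩
  rw [← hκd] at hκ
  have h1 : (x₁ - κ) • (a : V) + (x₂ - κ) • (b : V) = 0 := by
    rw [← hab', map_add, hGA a a.2, hGB b b.2, smul_add] at hκ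
    rw [sub_smul, sub_smul]
    have h2 : x₁ • (a : V) + x₂ • (b : V) - (κ • (a : V) + κ • (b : V)) = 0 := sub_eq_zero.2 hκ
    rw [← h2]
    abel
  have haA : (x₁ - κ) • (a : V) ∈ A := hsA _ _ a.2
  have hbB : (x₂ - κ) • (b : V) ∈ B := hsB _ _ b.2
  have h2 : (x₁ - κ) • (a : V) = 0 := by
    refine hS.disj' hAS hBS hAB haA ?_
    rw [eq_neg_of_add_eq_zero_left h1]
    exact B.neg_mem hbB
  have h3 : (x₂ - κ) • (b : V) = 0 := by
    rw [h2, zero_add] at h1
    exact h1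
  have hz : ∀ {z : QuadraticAlgebra F (-δ) τ} {v : V}, z • v = 0 → z = 0 ∨ v = 0 := by
    intro z v hzv
    by_cases hv : v = 0
    · exact Or.inr hv
    · exact Or.inl (hcanc hv (by rw [hzv, zero_smul]))
  rcases hz h2 with h4 | h4
  · rcases hz h3 with h5 | h5
    · exfalso
      exact hne ((sub_eq_zero.1 h5).trans (sub_eq_zero.1 h4).symm)
    · left
      refine hS.disj hU hAS hu0 huU ?_
      rw [← hab', h5, add_zero]
      exact a.2
  · right
    refine hS.disj hU hBS hu0 huU ?_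
    rw [← hab', h4, zero_add]
    exact b.2

end Pool.Agent.RegPack
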