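import Pool.Agent.Lib_MP_cd200f_f.Fx1

/-!
# Traces on fixed lines, counting
-/

namespace Pool.Agent.RegPack

open Module Polynomial

variable {F V : Type*} [Field F] [AddCommGroup V] [Module F V]

theorem line_trace [Fintype F] (G : V ≃ₗ[F] V) {r : ℕ} (hr : ∀ v, (G ^ r) v = v)
    (hcop : Nat.Coprime r (Fintype.card F - 1)) {U : Submodule F V} (hU : IsLine U)
    (hGU : ∀ v ∈ U, G v ∈ U) : ∃ t : F, ∀ v ∈ U, G v + G.symm v = t • v := by
  have hfd := hU.fin
  obtain ⟨M, hM⟩ : ∃ M : U →ₗ[F] U, ∀ u : U, ((M u : U) : V) = G u :=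
    ⟨(G : V →ₗ[F] V).restrict hGU, fun u => rfl⟩
  have hinj : Function.Injective M := by
    intro a b hab
    have h1 := congrArg Subtype.val hab
    rw [hM, hM] at h1
    exact Subtype.ext (G.injective h1)
  obtain ⟨GU, hGU'⟩ : ∃ GU : U ≃ₗ[F] U, ∀ u : U, ((GU u : U) : V) = G u :=
    ⟨LinearEquiv.ofInjectiveEndo M hinj, fun u => hM u⟩
  have hpow : ∀ (n : ℕ) (u : U), (((GU ^ n) u : U) : V) = (G ^ n) u := by
    intro n
    induction n with
    | zero => intro u; rfl
    | succ n ih =>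
      intro u
      rw [pow_succ, pow_succ]
      show (((GU ^ n) (GU u) : U) : V) = (G ^ n) (G u)
      rw [ih, hGU']
  obtain ⟨t, ht⟩ := two_dim_trace hU GU (r := r) (fun u => Subtype.ext (by rw [hpow, hr])) hcop
  refine ⟨t, fun v hv => ?_⟩
  have h1 := congrArg Subtype.val (ht ⟨v, hv⟩)
  have h2 : ((GU.symm ⟨v, hv⟩ : U) : V) = G.symm v := by
    rw [LinearEquiv.eq_symm_apply, ← hGU', GU.apply_symm_apply]
  have h3 : ((GU ⟨v, hv⟩ : U) : V) + ((GU.symm ⟨v, hv⟩ : U) : V) = t • v := h1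
  rw [h2, hGU'] at h3
  exact h3

/-- the number of lines of a spread -/
theorem card_spread [Finite F] (hV : finrank F V = 4) {S : Set (Submodule F V)}
    (hS : IsSpread S) : Nat.card S = Nat.card F ^ 2 + 1 := by
  have hfin := finite_space (F := F) (V := V) hV
  have hfd : FiniteDimensional F V := FiniteDimensional.of_finrank_pos (by rw [hV]; norm_num)
  have hq : 1 < Nat.card F := Finite.one_lt_card
  have hfinS : Finite (Submodule F V) := Finite.of_injective _ SetLike.coe_injective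
  have hfinP : Finite S := inferInstance
  have := Fintype.ofFinite S
  have h1 : Nat.card (Σ U : S, {w : V // w ∈ U.1 ∧ w ≠ 0}) = Nat.card {w : V // w ≠ 0} := by
    refine Nat.card_eq_of_bijective
      (fun x : (Σ U : S, {w : V // w ∈ U.1 ∧ w ≠ 0}) => (⟨x.2.1, x.2.2.2⟩ : {w : V // w ≠ 0}))
      ⟨?_, ?_⟩
    · rintro ⟨U, w, hw1, hw2⟩ ⟨U', w', hw1', hw2'⟩ h
      have hww : w = w' := congrArg Subtype.val h
      subst hww
      have h3 : U = U' := Subtype.ext (hS.disj U.2 U'.2 hw2 hw1 hw1')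
      subst h3
      rfl
    · rintro ⟨w, hw⟩
      obtain ⟨U, ⟨hU, hwU⟩, -⟩ := hS.cover w hw
      exact ⟨⟨⟨U, hU⟩, w, hwU, hw⟩, rfl⟩
  have h2 : ∀ U : S, Nat.card {w : V // w ∈ U.1 ∧ w ≠ 0} = Nat.card F ^ 2 - 1 := by
    intro U
    have h3 : ((U.1 : Set V) \ {0}).ncard = (U.1 : Set V).ncard - 1 :=
      Set.ncard_sdiff_singleton_of_mem (U.1.zero_mem)
    have h4 : (U.1 : Set V).ncard = Nat.card F ^ 2 := by
      show Nat.card U.1 = _
      rw [Module.natCard_eq_pow_finrank (K := F), hS.line _ U.2]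
    rw [h4] at h3
    exact h3
  have h3 : Nat.card {w : V // w ≠ 0} = Nat.card F ^ 4 - 1 := by
    have h4 : ((Set.univ : Set V) \ {0}).ncard = (Set.univ : Set V).ncard - 1 :=
      Set.ncard_sdiff_singleton_of_mem (Set.mem_univ _)
    rw [Set.ncard_univ, Module.natCard_eq_pow_finrank (K := F) (V := V), hV] at h4
    rw [← h4]
    show Nat.card _ = Nat.card _
    refine Nat.card_congr (Equiv.subtypeEquivRight fun w => ?_)
    simp
  rw [Nat.card_sigma, Finset.sum_congr rfl (fun U _ => h2 U), Finset.sum_const, Finset.card_univ,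
    ← Nat.card_eq_fintype_card, h3, smul_eq_mul] at h1
  obtain ⟨d, hd⟩ : ∃ d, Nat.card F ^ 2 = d + 2 := by
    have h5 : 2 ≤ Nat.card F ^ 2 := by nlinarith
    exact ⟨_, (Nat.sub_add_cancel h5).symm⟩
  have h6 : Nat.card F ^ 4 = (d + 2) * (d + 2) := by
    rw [← hd]
    ring
  rw [h6, hd] at h1
  rw [hd]
  have h7 : Nat.card S * (d + 1) = (d + 2 + 1) * (d + 1) := by
    have h8 : (d + 2) * (d + 2) - 1 = (d + 2 + 1) * (d + 1) := by
      have h9 : (d + 2) * (d + 2) = (d + 2 + 1) * (d + 1) + 1 := by ring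
      omega
    rw [← h8, ← h1]
    rfl
  exact Nat.eq_of_mul_eq_mul_right (Nat.succ_pos d) h7

/-- the lines which are mapped into themselves -/
def stab (G : V ≃ₗ[F] V) : Set (Submodule F V) := {U | IsLine U ∧ ∀ v ∈ U, G v ∈ U}

theorem ker_spread {S : Set (Submodule F V)} {J : Module.End F V} {τ δ : F}
    (h : Ker S J τ δ) (hl : ∀ U ∈ S, IsLine U) : IsSpread S := by
  refine ⟨hl, fun v hv => ⟨Submodule.span F {v, J v}, ⟨h.line hv, Submodule.subset_span (by simp)⟩,
    ?_⟩⟩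
  rintro U ⟨hU, hvU⟩
  exact (hl U hU).eq_span hvU ((h.mem U (hl U hU)).1 hU v hvU) (h.indep hv)

end Pool.Agent.RegPack
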