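import Pool.Agent.Lib_MP_cd200f_f.Fx2

/-!
# The fixed spreads of a linear map of odd prime order
-/

namespace Pool.Agent.RegPack

open Module Polynomial

variable {F V : Type*} [Field F] [AddCommGroup V] [Module F V]
variable {P : Set (Set (Submodule F V))} {G : V ≃ₗ[F] V}

/-- a spread of the packing which contains a stable line is fixed -/
theorem fix_of_stab (hP : IsPacking P) (hg : ∀ S ∈ P, im G S ∈ P) {S : Set (Submodule F V)}
    (hS : S ∈ P) {U : Submodule F V} (hU : U ∈ S) (hUs : U ∈ stab G) : im G S = S := by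
  refine (hP.cover U hUs.1).unique ⟨hg S hS, U, hU, ?_⟩ ⟨hS, hU⟩
  exact map_eq_of_inv G hUs.1 hUs.2

/-- no fixed spread -/
theorem no_fixed [Finite F] (hV : finrank F V = 4) {γ : F} (hγ0 : γ ≠ 0) (hγ1 : γ ≠ 1)
    (hP : IsPacking P) (hR : ∀ S ∈ P, IsRegular S) {r : ℕ}
    (hr : r.Prime) (hodd : Odd r) (hGr : ∀ v, (G ^ r) v = v) (hne : ∃ v, G v ≠ v)
    (hn : ¬ r ∣ Nat.card F * (Nat.card F - 1)) (hd : r ∣ Nat.card F ^ 2 + Nat.card F + 1)
    {S : Set (Submodule F V)} (hS : S ∈ P) : im G S ≠ S := by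
  intro hfix
  have := Fintype.ofFinite F
  have hfd : FiniteDimensional F V := FiniteDimensional.of_finrank_pos (by rw [hV]; norm_num)
  obtain ⟨J, τ, δ, hJ⟩ := exists_ker hV hγ0 hγ1 (hP.spread S hS) (hR S hS)
  obtain ⟨k, hk⟩ := hodd
  have hcomm : ∀ v, G (J v) = J (G v) := fun v =>
    comm_odd hV (hP.spread S hS) hfix hJ (k := k) (c := 1) (fun v => by
      rw [← hk, hGr, one_smul]) v
  obtain ⟨D, hD, hmod⟩ := sub_modEq hV G hr hGr ⊤ (fun w _ => Submodule.mem_top)
  rw [finrank_top, hV] at hmod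
  have hJD : ∀ v ∈ D, J v ∈ D := fun v hv => by
    rw [hD] at hv ⊢
    exact ⟨Submodule.mem_top, by rw [hcomm, hv.2]⟩
  have hle : finrank F D ≤ 4 := by rw [← hV]; exact Submodule.finrank_le D
  have hD1 : finrank F D ≠ 1 := by
    intro h1
    obtain ⟨v, hv0, hv⟩ := finrank_eq_one_iff'.1 h1
    obtain ⟨c, hc⟩ := hv ⟨J v, hJD v v.2⟩
    have h2 : c • (v : V) = J v := congrArg Subtype.val hc
    exact hJ.ne v (fun h3 => hv0 (Subtype.ext h3)) c h2.symm
  have hD4 : finrank F D ≠ 4 := by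
    intro h1
    obtain ⟨v, hv⟩ := hne
    have h4 : D = ⊤ := Submodule.eq_top_of_finrank_eq (by rw [h1, hV])
    have h5 : v ∈ D := by rw [h4]; exact Submodule.mem_top
    exact hv ((hD v).1 h5).2
  obtain ⟨q, hq⟩ : ∃ q, q = Nat.card F := ⟨_, rfl⟩
  have hq1 : 1 < q := by rw [hq]; exact Finite.one_lt_card
  rw [← hq] at hn hd hmod
  have hm : (r : ℤ) ∣ (q : ℤ) ^ finrank F D - (q : ℤ) ^ 4 := by
    have h1 := (Nat.modEq_iff_dvd).1 hmod
    push_cast at h1
    exact h1
  have hd' : (r : ℤ) ∣ (q : ℤ) ^ 2 + q + 1 := by exact_mod_cast hd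
  have hn' : ¬ (r : ℤ) ∣ (q : ℤ) * ((q : ℤ) - 1) := by
    intro h1
    apply hn
    have h2 : ((q * (q - 1) : ℕ) : ℤ) = (q : ℤ) * ((q : ℤ) - 1) := by
      rw [Nat.cast_mul, Nat.cast_sub hq1.le, Nat.cast_one]
    rw [← h2] at h1
    exact_mod_cast h1
  have hrp : Prime (r : ℤ) := Nat.prime_iff_prime_int.1 hr
  apply hn'
  interval_cases hdd : finrank F D
  · have e : (q : ℤ) * ((q : ℤ) - 1) = q * (-((q : ℤ) ^ 0 - (q : ℤ) ^ 4) -
        ((q : ℤ) ^ 2 + q + 1) * (q * (q - 1))) := by ring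
    rw [e]
    exact Dvd.dvd.mul_left (dvd_sub ((dvd_neg).2 hm) (hd'.mul_right _)) _
  · exact absurd rfl hD1
  · have e : (q : ℤ) * ((q : ℤ) - 1) = ((q : ℤ) ^ 2 - (q : ℤ) ^ 4) +
        ((q : ℤ) ^ 2 + q + 1) * (q * (q - 1)) := by ring
    rw [e]
    exact dvd_add hm (hd'.mul_right _)
  · have e : (q : ℤ) ^ 3 - (q : ℤ) ^ 4 = -((q : ℤ) ^ 3 * ((q : ℤ) - 1)) := by ring
    rw [e, dvd_neg] at hm
    rcases hrp.dvd_or_dvd hm with h | h
    · exact (hrp.dvd_of_dvd_pow h).mul_right _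
    · exact h.mul_left _
  · exact absurd rfl hD4

/-- **The fixed spreads**, second case. -/
theorem fixed_one [Finite F] (hV : finrank F V = 4) {γ : F} (hγ0 : γ ≠ 0) (hγ1 : γ ≠ 1)
    (hP : IsPacking P) (hR : ∀ S ∈ P, IsRegular S) (hg : ∀ S ∈ P, im G S ∈ P) {r : ℕ}
    (hr : r.Prime) (hodd : Odd r) (hGr : ∀ v, (G ^ r) v = v)
    (hns : ¬ ∃ μ : F, ∀ v, G v = μ • v)
    (hn : ¬ r ∣ Nat.card F * (Nat.card F - 1)) (hd : r ∣ Nat.card F + 1) :
    (∃ S ∈ P, im G S = S ∧ ∀ T ∈ P, im G T = T → T = S) ∨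
    ((∃ t : F, Ker (stab G) (G : V →ₗ[F] V) t 1) ∧ stab G ∉ P ∧
      (∀ S ∈ P, im G S = S → (S ∩ stab G).ncard = 2) ∧
      2 * Nat.card {S : P // im G S.1 = S.1} = Nat.card F ^ 2 + 1) := by
  have := Fintype.ofFinite F
  have hfin := finite_space (F := F) (V := V) hV
  have hfd : FiniteDimensional F V := FiniteDimensional.of_finrank_pos (by rw [hV]; norm_num)
  have hnt : Nontrivial V := Module.nontrivial_of_finrank_pos (R := F) (by rw [hV]; norm_num)
  have hfinS : Finite (Submodule F V) := Finite.of_injective _ SetLike.coe_injective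
  have hcq : Nat.card F = Fintype.card F := Nat.card_eq_fintype_card
  have hq1 : 1 < Nat.card F := Finite.one_lt_card
  have hcop : Nat.Coprime r (Fintype.card F - 1) := by
    rw [hr.coprime_iff_not_dvd]
    intro h
    exact hn (by rw [hcq]; exact h.mul_left _)
  have hdvd : r ∣ Fintype.card F ^ 2 - 1 := by
    rw [hcq] at hd
    have e : Fintype.card F ^ 2 - 1 = (Fintype.card F + 1) * (Fintype.card F - 1) := by
      rw [← Nat.sq_sub_sq, one_pow]
    rw [e]
    exact hd.mul_right _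
  -- fixed spreads
  have hker : ∀ S ∈ P, im G S = S → ∃ (J : Module.End F V) (τ δ : F), Ker S J τ δ ∧
      ((∃ x y : F, ∀ v, G v = x • v + y • J v) ∨
      ∃ A B, A ∈ S ∧ B ∈ S ∧ A ≠ B ∧ (∀ v ∈ A, G v ∈ A) ∧ (∀ v ∈ B, G v ∈ B) ∧
        ∀ U ∈ S, (∀ v ∈ U, G v ∈ U) → U = A ∨ U = B) := by
    intro S hS hfix
    obtain ⟨J, τ, δ, hJ⟩ := exists_ker hV hγ0 hγ1 (hP.spread S hS) (hR S hS)
    obtain ⟨k, hk⟩ := hodd
    have hcomm : ∀ v, G (J v) = J (G v) := fun v =>
      comm_odd hV (hP.spread S hS) hfix hJ (k := k) (c := 1) (fun v => by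
        rw [← hk, hGr, one_smul]) v
    exact ⟨J, τ, δ, hJ, two_fixed hV (hP.spread S hS) hJ G hcomm hGr hdvd⟩
  have huniq : ∀ {S T : Set (Submodule F V)} {U : Submodule F V}, S ∈ P → T ∈ P → U ∈ S → U ∈ T →
      S = T := fun {S T U} hS hT hU hU' =>
    (hP.cover U ((hP.spread S hS).line U hU)).unique ⟨hS, hU⟩ ⟨hT, hU'⟩
  have hex : ∃ S ∈ P, im G S = S := by
    by_contra hcon
    push Not at hcon
    have h1 := fix_card hV hP hg hr hGr
    have h2 : Nat.card {S : P // im G S.1 = S.1} = 0 := by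
      rw [Nat.card_eq_zero]
      left
      exact ⟨fun S => hcon S.1.1 S.1.2 S.2⟩
    rw [h2, Nat.modEq_zero_iff_dvd] at h1
    have h3 : r ∣ 1 := by
      have h4 : r ∣ Nat.card F * (Nat.card F + 1) := hd.mul_left _
      have h5 : Nat.card F ^ 2 + Nat.card F + 1 = Nat.card F * (Nat.card F + 1) + 1 := by ring
      rw [h5] at h1
      exact (Nat.dvd_add_right h4).1 h1
    exact hr.one_lt.ne' (Nat.dvd_one.1 h3)
  -- every fixed spread contains a stable line
  have hstab : ∀ S ∈ P, im G S = S → ∃ U ∈ S, ∀ v ∈ U, G v ∈ U := by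
    intro S hS hfix
    obtain ⟨J, τ, δ, hJ, h | ⟨A, B, hA, -, -, hGA, -, -⟩⟩ := hker S hS hfix
    · obtain ⟨x, y, hxy⟩ := h
      obtain ⟨v, hv⟩ := exists_ne (0 : V)
      refine ⟨_, hJ.line hv, fun w hw => ?_⟩
      have h1 := (hJ.mem _ (isLine_span (hJ.indep hv))).1 (hJ.line hv) w hw
      rw [hxy]
      exact Submodule.add_mem _ (Submodule.smul_mem _ _ hw) (Submodule.smul_mem _ _ h1)
    · exact ⟨A, hA, hGA⟩
  by_cases hA : ∃ S ∈ P, im G S = S ∧ ∃ (J : Module.End F V) (τ δ : F), Ker S J τ δ ∧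
      ∃ x y : F, ∀ v, G v = x • v + y • J v
  · obtain ⟨S, hS, hfix, J, τ, δ, hJ, x, y, hxy⟩ := hA
    left
    refine ⟨S, hS, hfix, fun T hT hTf => ?_⟩
    obtain ⟨U, hU, hGU⟩ := hstab T hT hTf
    have hUl := (hP.spread T hT).line U hU
    refine huniq hT hS hU ((hJ.mem U hUl).2 fun v hv => ?_)
    have hy : y ≠ 0 := by
      rintro rfl
      exact hns ⟨x, fun v => by rw [hxy, zero_smul, add_zero]⟩
    have h1 : J v = y⁻¹ • (G v - x • v) := by
      rw [hxy, add_sub_cancel_left, smul_smul, inv_mul_cancel₀ hy, one_smul]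
    rw [h1]
    exact U.smul_mem _ (U.sub_mem (hGU v hv) (U.smul_mem _ hv))
  have htwo : ∀ S ∈ P, im G S = S → ∃ A B, A ∈ S ∧ B ∈ S ∧ A ≠ B ∧ (∀ v ∈ A, G v ∈ A) ∧
      (∀ v ∈ B, G v ∈ B) ∧ ∀ U ∈ S, (∀ v ∈ U, G v ∈ U) → U = A ∨ U = B := by
    intro S hS hfix
    obtain ⟨J, τ, δ, hJ, h | h⟩ := hker S hS hfix
    · exact absurd ⟨S, hS, hfix, J, τ, δ, hJ, h⟩ hA
    · exact h
  obtain ⟨S, hS, hfix⟩ := hex
  obtain ⟨A, B, hAS, hBS, hAB, hGA, hGB, hABu⟩ := htwo S hS hfix
  have hAl := (hP.spread S hS).line A hAS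
  have hBl := (hP.spread S hS).line B hBS
  obtain ⟨e, he⟩ := exists_decomp hV hAl hBl (fun v hv1 hv2 =>
    (hP.spread S hS).disj' hAS hBS hAB hv1 hv2)
  obtain ⟨tA, htA⟩ := line_trace G hGr hcop hAl hGA
  obtain ⟨tB, htB⟩ := line_trace G hGr hcop hBl hGB
  have hdec : ∀ v : V, ∃ a ∈ A, ∃ b ∈ B, a + b = v := by
    intro v
    obtain ⟨⟨a, b⟩, hab⟩ := e.surjective v
    rw [he] at hab
    exact ⟨a, a.2, b, b.2, hab⟩
  by_cases htt : tA = tB
  · right
    subst htt
    have htr : ∀ v, G v + G.symm v = tA • v := by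
      intro v
      obtain ⟨a, ha, b, hb, rfl⟩ := hdec v
      rw [map_add, map_add, smul_add, ← htA a ha, ← htB b hb]
      abel
    have hquad : ∀ v, G (G v) = tA • G v - (1 : F) • v := by
      intro v
      have h1 := htr (G v)
      rw [LinearEquiv.symm_apply_apply] at h1
      rw [← h1, one_smul, add_sub_cancel_right]
    have hnoeig : ∀ v, v ≠ 0 → ∀ c : F, G v ≠ c • v := by
      intro v hv c hc
      have hpow : ∀ n : ℕ, (G ^ n) v = c ^ n • v := by
        intro n
        induction n with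
        | zero => rw [pow_zero, pow_zero, one_smul]; rfl
        | succ n ih =>
          rw [pow_succ]
          show (G ^ n) (G v) = _
          rw [hc, map_smul, ih, smul_smul, pow_succ, mul_comm]
      have hcr : c ^ r = 1 := by
        have h1 := hpow r
        rw [hGr] at h1
        have h2 : (c ^ r - 1) • v = 0 := by rw [sub_smul, ← h1, one_smul, sub_self]
        exact sub_eq_zero.1 ((smul_eq_zero.1 h2).resolve_right hv)
      have hc0 : c ≠ 0 := by
        rintro rfl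
        rw [zero_pow hr.ne_zero] at hcr
        exact zero_ne_one hcr
      have hc1 : c = 1 := by
        have h4 := FiniteField.pow_card_sub_one_eq_one _ hc0
        have h5 : orderOf c ∣ Nat.gcd r (Fintype.card F - 1) :=
          Nat.dvd_gcd (orderOf_dvd_of_pow_eq_one hcr) (orderOf_dvd_of_pow_eq_one h4)
        rw [hcop, Nat.dvd_one, orderOf_eq_one_iff] at h5
        exact h5
      subst hc1
      rw [one_smul] at hc
      have ht2 : tA = 2 := by
        have h1 := hquad v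
        rw [hc, hc] at h1
        have h2 : (tA - 2) • v = 0 := by
          have h3 : tA • v = v + (1 : F) • v := (eq_sub_iff_add_eq.1 h1).symm
          rw [sub_smul, h3, one_smul, two_smul, sub_self]
        exact sub_eq_zero.1 ((smul_eq_zero.1 h2).resolve_right hv)
      obtain ⟨k, hk⟩ := hodd
      refine hns ⟨1, fun w => ?_⟩
      have h1 : G w - w = 0 := by
        refine no_block hV hγ0 hγ1 hP hR hg (k := k) (c := 1) (μ := 1) (v := w) (fun v => by
          rw [← hk, hGr, one_smul]) (by rw [one_smul]; abel) ?_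
        rw [map_sub, hquad, ht2, one_smul, one_smul, two_smul]
        abel
      rw [one_smul]
      exact sub_eq_zero.1 h1
    have hK : Ker (stab G) (G : V →ₗ[F] V) tA 1 :=
      ⟨hquad, hnoeig, fun U hU => ⟨fun h => h.2, fun h => ⟨hU, h⟩⟩⟩
    have hSp : IsSpread (stab G) := ker_spread hK fun U hU => hU.1
    have hcs := card_spread hV hSp
    have hint : ∀ T ∈ P, im G T = T → (T ∩ stab G).ncard = 2 := by
      intro T hT hTf
      obtain ⟨A', B', hA', hB', hAB', hGA', hGB', hu⟩ := htwo T hT hTf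
      have h1 : T ∩ stab G = {A', B'} := by
        ext U
        constructor
        · rintro ⟨hUT, hUs⟩
          exact hu U hUT hUs.2
        · rintro (rfl | rfl)
          · exact ⟨hA', (hP.spread T hT).line _ hA', hGA'⟩
          · exact ⟨hB', (hP.spread T hT).line _ hB', hGB'⟩
      rw [h1, Set.ncard_pair hAB']
    have hnotP : stab G ∉ P := by
      intro hsP
      have h1 : im G (stab G) = stab G := by
        obtain ⟨v, hv⟩ := exists_ne (0 : V)
        have h2 := hK.line hv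
        exact fix_of_stab hP hg hsP h2 h2
      have h2 := hint _ hsP h1
      rw [Set.inter_self] at h2
      have h3 : (stab G).ncard = Nat.card F ^ 2 + 1 := hcs
      have h4 : 2 * 2 ≤ Nat.card F ^ 2 := by nlinarith
      omega
    refine ⟨⟨tA, hK⟩, hnotP, hint, ?_⟩
    have hfinP : Finite P := inferInstance
    have hfinFS : Finite {S : P // im G S.1 = S.1} := inferInstance
    have := Fintype.ofFinite {S : P // im G S.1 = S.1}
    have h1 : Nat.card (Σ S : {S : P // im G S.1 = S.1}, {U // U ∈ S.1.1 ∩ stab G}) =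
        Nat.card (stab G) := by
      refine Nat.card_eq_of_bijective
        (fun x : (Σ S : {S : P // im G S.1 = S.1}, {U // U ∈ S.1.1 ∩ stab G}) =>
          (⟨x.2.1, x.2.2.2⟩ : stab G)) ⟨?_, ?_⟩
      · rintro ⟨T, U, hU1, hU2⟩ ⟨T', U', hU1', hU2'⟩ h
        have hUU : U = U' := congrArg Subtype.val h
        subst hUU
        have h3 : T = T' := Subtype.ext (Subtype.ext (huniq T.1.2 T'.1.2 hU1 hU1'))
        subst h3
        rfl
      · rintro ⟨U, hU⟩
        obtain ⟨T, ⟨hT, hUT⟩, -⟩ := hP.cover U hU.1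
        exact ⟨⟨⟨⟨T, hT⟩, fix_of_stab hP hg hT hUT hU⟩, U, hUT, hU⟩, rfl⟩
    have h2 : ∀ S : {S : P // im G S.1 = S.1}, Nat.card {U // U ∈ S.1.1 ∩ stab G} = 2 :=
      fun S => hint S.1.1 S.1.2 S.2
    rw [Nat.card_sigma, Finset.sum_congr rfl (fun S _ => h2 S), Finset.sum_const,
      Finset.card_univ, ← Nat.card_eq_fintype_card, hcs, smul_eq_mul] at h1
    rw [mul_comm]
    exact h1
  · left
    refine ⟨S, hS, hfix, fun T hT hTf => ?_⟩
    obtain ⟨U, hU, hGU⟩ := hstab T hT hTf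
    have hUl := (hP.spread T hT).line U hU
    obtain ⟨tU, htU⟩ := line_trace G hGr hcop hUl hGU
    have key : ∀ a ∈ A, ∀ b ∈ B, a + b ∈ U → (tA - tU) • a = 0 ∧ (tB - tU) • b = 0 := by
      intro a ha b hb hab
      have h1 := htU _ hab
      rw [map_add, map_add, smul_add] at h1
      have h2 : (tA - tU) • a + (tB - tU) • b = 0 := by
        rw [sub_smul, sub_smul, ← htA a ha, ← htB b hb]
        have h3 : G a + G b + (G.symm a + G.symm b) - (tU • a + tU • b) = 0 := sub_eq_zero.2 h1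
        rw [← h3]
        abel
      have h3 : (tA - tU) • a = 0 := by
        refine (hP.spread S hS).disj' hAS hBS hAB (A.smul_mem _ ha) ?_
        rw [eq_neg_of_add_eq_zero_left h2]
        exact B.neg_mem (B.smul_mem _ hb)
      rw [h3, zero_add] at h2
      exact ⟨h3, h2⟩
    obtain ⟨u, huU, hu0⟩ := hUl.exists_ne
    obtain ⟨a, ha, b, hb, hab⟩ := hdec u
    obtain ⟨k1, k2⟩ := key a ha b hb (by rw [hab]; exact huU)
    rcases smul_eq_zero.1 k1 with h1 | h1
    · rcases smul_eq_zero.1 k2 with h2 | h2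
      · exact absurd ((sub_eq_zero.1 h1).trans (sub_eq_zero.1 h2).symm) htt
      · -- tU = tA, U = A
        have hUA : U ≤ A := by
          intro w hw
          obtain ⟨a', ha', b', hb', hab'⟩ := hdec w
          obtain ⟨-, k4⟩ := key a' ha' b' hb' (by rw [hab']; exact hw)
          rcases smul_eq_zero.1 k4 with h3 | h3
          · exact absurd ((sub_eq_zero.1 h1).trans (sub_eq_zero.1 h3).symm) htt
          · rw [← hab', h3, add_zero]
            exact ha'
        have hUA' : U = A := hUl.eq_of_le hAl hUA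
        rw [hUA'] at hU
        exact huniq hT hS hU hAS
    · -- a = 0
      have hb0 : b ≠ 0 := by
        rintro rfl
        rw [h1, add_zero] at hab
        exact hu0 hab.symm
      have h2 := (smul_eq_zero.1 k2).resolve_right hb0
      have hUB : U ≤ B := by
        intro w hw
        obtain ⟨a', ha', b', hb', hab'⟩ := hdec w
        obtain ⟨k3, -⟩ := key a' ha' b' hb' (by rw [hab']; exact hw)
        rcases smul_eq_zero.1 k3 with h3 | h3
        · exact absurd ((sub_eq_zero.1 h3).trans (sub_eq_zero.1 h2).symm) htt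
        · rw [← hab', h3, zero_add]
          exact hb'
      have hUB' : U = B := hUl.eq_of_le hBl hUB
      rw [hUB'] at hU
      exact huniq hT hS hU hBS

end Pool.Agent.RegPack
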