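import Pool.Agent.Lib_MP_cd200f_f.Fx3
import Pool.Agent.Lib_MP_cd200f_s.Sub2

/-!
# The main theorem on fixed spreads
-/

namespace Pool.Agent.RegPack

open Module

variable {F V : Type} [Field F] [AddCommGroup V] [Module F V]

/-- the lines of a kernel form a regular spread -/
theorem ker_regular (hV : finrank F V = 4) {S : Set (Submodule F V)} {J : Module.End F V}
    {τ δ : F} (h : Ker S J τ δ) (hS : IsSpread S) : IsRegular S := by
  intro a ha b hb c hc hab hac hbc U hU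
  have hd : ∀ {x y : Submodule F V}, x ∈ S → y ∈ S → x ≠ y → x ⊓ y = ⊥ := by
    intro x y hx hy hxy
    rw [Submodule.eq_bot_iff]
    rintro z ⟨hzx, hzy⟩
    exact hS.disj' hx hy hxy hzx hzy
  have hst : ∀ {x : Submodule F V}, x ∈ S → ∀ v ∈ x, J v ∈ x := fun hx =>
    (h.mem _ (hS.line _ hx)).1 hx
  obtain ⟨x₁, x₂, y₁, y₂, hx₁, -, hy₁, -, hx, hy, hz₁, -, -⟩ :=
    exists_coord hV (hS.line a ha) (hS.line b hb) (hS.line c hc) (hd ha hb hab)
      (hd ha hc hac) (hd hb hc hbc)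
  have hx0 : x₁ ≠ 0 := hx.ne_zero 0
  have hy0 : y₁ ≠ 0 := hy.ne_zero 0
  obtain ⟨l, m, hlm, h1, h2⟩ := regulus_coord (hd ha hb hab) hx₁ (hst ha _ hx₁) hy₁
    (hst hb _ hy₁) hz₁ (by rw [← map_add]; exact hst hc _ hz₁) (h.indep hx0) (h.indep hy0) hU
  have hw0 : l • x₁ + m • y₁ ≠ 0 := by
    intro h0
    have h3 : l • x₁ ∈ a ⊓ b := ⟨a.smul_mem _ hx₁, by
      rw [eq_neg_of_add_eq_zero_left h0]
      exact b.neg_mem (b.smul_mem _ hy₁)⟩
    rw [hd ha hb hab, Submodule.mem_bot] at h3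
    rw [h3, zero_add] at h0
    rcases hlm with hl | hm
    · exact hl ((smul_eq_zero.1 h3).resolve_right hx0)
    · exact hm ((smul_eq_zero.1 h0).resolve_right hy0)
  have hJw : J (l • x₁ + m • y₁) ∈ U := by
    rw [map_add, map_smul, map_smul]
    exact h2
  rw [hU.1.eq_span h1 hJw (h.indep hw0)]
  exact h.line hw0

/-- the set of the lines which are fixed by a collineation -/
def fixedLines (g : V ≃ₗ[F] V) : Set (Submodule F V) :=
  {U | IsLine U ∧ U.map (g : V →ₗ[F] V) = U}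

/-- **Main theorem** -/
theorem fixed_main [Finite F] (hF : 2 < Nat.card F) (hV : finrank F V = 4)
    {P : Set (Set (Submodule F V))} (hP : IsPacking P) (hR : ∀ S ∈ P, IsRegular S)
    {g : V ≃ₗ[F] V} (hg : ∀ S ∈ P, im g S ∈ P) (hns : ¬ ∃ μ : F, ∀ v, g v = μ • v) {r : ℕ}
    (hr : r.Prime) (hr2 : r ≠ 2) {c : F} (hc : ∀ v, (g ^ r) v = c • v) :
    (r ∣ Nat.card F ^ 2 + Nat.card F + 1 → ∀ S ∈ P, im g S ≠ S) ∧
    (r ∣ Nat.card F + 1 →
      (∃! S, S ∈ P ∧ im g S = S) ∨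
      (Odd (Nat.card F) ∧ IsSpread (fixedLines g) ∧ IsRegular (fixedLines g) ∧
        fixedLines g ∉ P ∧ (∀ S ∈ P, im g S = S → (S ∩ fixedLines g).ncard = 2) ∧
        2 * {S | S ∈ P ∧ im g S = S}.ncard = Nat.card F ^ 2 + 1)) := by
  obtain ⟨hn, -⟩ := odd_prime hF hV hP hR hg hr hr2 hc hns
  obtain ⟨γ, hγ0, hγ1⟩ := exists_gamma hF
  have hodd : Odd r := hr.odd_of_ne_two hr2
  obtain ⟨G, μ, hμ, hgG, hGr, him⟩ := exists_norm hV hodd hc
  have hGP : ∀ S ∈ P, im G S ∈ P := fun S hS => by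
    rw [him]
    exact hg S hS
  have hGns : ¬ ∃ μ : F, ∀ v, G v = μ • v := by
    rintro ⟨ν, hν⟩
    exact hns ⟨μ * ν, fun v => by rw [hgG, hν, smul_smul]⟩
  have hG1 : ∃ v, G v ≠ v := by
    by_contra hcon
    push Not at hcon
    exact hGns ⟨1, fun v => by rw [hcon, one_smul]⟩
  have hst : fixedLines g = stab G := by
    ext U
    constructor
    · rintro ⟨hU, hm⟩
      refine ⟨hU, fun v hv => ?_⟩
      rw [← map_eq_of_smul hμ hgG U] at hm
      rw [← hm]
      exact ⟨v, hv, rfl⟩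
    · rintro ⟨hU, hm⟩
      refine ⟨hU, ?_⟩
      rw [← map_eq_of_smul hμ hgG U]
      exact map_eq_of_inv G hU hm
  refine ⟨fun hd S hS => ?_, fun hd => ?_⟩
  · rw [← him]
    exact no_fixed hV hγ0 hγ1 hP hR hr hodd hGr hG1 hn hd hS
  rcases fixed_one hV hγ0 hγ1 hP hR hGP hr hodd hGr hGns hn hd with
    ⟨S, hS, hfix, hu⟩ | ⟨⟨t, hK⟩, hnP, hint, hcard⟩
  · left
    refine ⟨S, ⟨hS, by rw [← him]; exact hfix⟩, ?_⟩
    rintro T ⟨hT, hTf⟩
    exact hu T hT (by rw [him]; exact hTf)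
  · right
    have hSp : IsSpread (stab G) := ker_spread hK fun U hU => hU.1
    rw [hst]
    refine ⟨?_, hSp, ker_regular hV hK hSp, hnP, fun S hS hf => hint S hS (by
      rw [him]; exact hf), ?_⟩
    · rw [← Nat.not_even_iff_odd]
      intro he
      have h1 : Even (Nat.card F ^ 2) := he.pow_of_ne_zero (by norm_num)
      have h2 : Even (Nat.card F ^ 2 + 1) := by
        rw [← hcard]
        exact even_two_mul _
      have h3 : ¬ Even (Nat.card F ^ 2 + 1) := by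
        rw [Nat.even_add_one]
        exact fun h => h h1
      exact h3 h2
    · rw [← hcard]
      congr 1
      have h1 : {S | S ∈ P ∧ im g S = S}.ncard = Nat.card {S : P // im G S.1 = S.1} := by
        show Nat.card {S | S ∈ P ∧ im g S = S} = _
        refine Nat.card_congr ⟨fun S => ⟨⟨S.1, S.2.1⟩, by rw [him]; exact S.2.2⟩,
          fun S => ⟨S.1.1, S.1.2, by rw [← him]; exact S.2⟩, fun S => rfl, fun S => rfl⟩
      exact h1

end Pool.Agent.RegPack
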